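import Pool.Agent.Q94.FixSmooth

/-!
# The fixed point set of an analytic nonexpansive map need not be a `C¹` manifold

On `ℝ³` with the maximum norm (a polyhedral norm) the map
`f(x, y, z) = (x, y, z - (τ(z - x) + τ(z - y) + τ(z)) / 4)`, `τ(t) = t³ / (1 + t²)`, is real analytic
and nonexpansive, and its fixed point set is not a `C¹` submanifold near the fixed point `0`.
-/

open Q94.FS

theorem Pool.Agent.Results.MP_8dfbdc_an.NotC1.result :
    (∀ x : Fin 3 → ℝ, ‖x‖ = ⨆ i : Fin 3, |x i|) ∧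
      ∃ f : (Fin 3 → ℝ) → (Fin 3 → ℝ), (∀ x y, ‖f x - f y‖ ≤ ‖x - y‖) ∧
        AnalyticOnNhd ℝ f Set.univ ∧ f 0 = 0 ∧ ¬ IsC1At {x | f x = x} 0 := by
  refine ⟨fun x => ?_, f, f_nonexp, f_analytic, zero_mem_M, not_C1⟩
  apply le_antisymm
  · rw [pi_norm_le_iff_of_nonneg (Real.iSup_nonneg fun i => abs_nonneg (x i))]
    intro i
    exact le_ciSup (f := fun i => |x i|) (Set.finite_range _).bddAbove i
  · exact ciSup_le fun i => norm_le_pi_norm x i
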